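import Pool.Agent.KK.StmtsE

/-!
# Squad KK, row E_COD: the codegree inequality for densities
-/

set_option autoImplicit false

namespace Pool.Agent.KK.E.H15

open Function

variable {V : Type} [Fintype V] [DecidableEq V]

theorem dens_eq {ι : Type} [Fintype ι] [DecidableEq ι] (c : ι → Finset V) (P : (ι → V) → Prop)
    [DecidablePred P] :
    dens c P = (((Fintype.piFinset c).filter P).card : ℝ) / ∏ i, ((c i).card : ℝ) := by
  unfold dens
  have h : {f : ι → V | (∀ i, f i ∈ c i) ∧ P f} = ((Fintype.piFinset c).filter P : Finset _) := by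
    ext f
    rw [Finset.mem_coe, Finset.mem_filter, Fintype.mem_piFinset]
    rfl
  rw [h, Set.ncard_coe_finset]

/-- the density on one coordinate -/
theorem dens_unit (X : Finset V) (hX : X.Nonempty) (P : (Unit → V) → Prop) (S : Finset V)
    (hS : ∀ x ∈ X, x ∈ S → P (fun _ => x)) :
    ((X ∩ S).card : ℝ) ≤ (X.card : ℝ) * dens (fun _ : Unit => X) P := by
  classical
  rw [dens_eq]
  have hp : (0 : ℝ) < X.card := by exact_mod_cast Finset.card_pos.2 hX
  have h1 : ∏ _i : Unit, (X.card : ℝ) = X.card := by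
    rw [Finset.prod_const, Finset.card_univ, Fintype.card_unit, pow_one]
  rw [h1, mul_div_cancel₀ _ hp.ne']
  have h2 : (X ∩ S).card ≤ ((Fintype.piFinset fun _ : Unit => X).filter P).card := by
    refine Finset.card_le_card_of_injOn (fun x => fun _ : Unit => x) (fun x hx => ?_)
      (fun x _ y _ h => congrFun h ())
    rw [Finset.mem_coe, Finset.mem_inter] at hx
    rw [Finset.mem_coe, Finset.mem_filter, Fintype.mem_piFinset]
    exact ⟨fun _ => hx.1, hS x hx.1 hx.2⟩
  exact_mod_cast h2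

/-- the index bijection for one more letter `X` -/
def phX (a b : ℕ) : (Fin a ⊕ Fin b) ⊕ Unit → Fin (a + 1) ⊕ Fin b
  | Sum.inl (Sum.inl i) => Sum.inl i.castSucc
  | Sum.inl (Sum.inr j) => Sum.inr j
  | Sum.inr _ => Sum.inl (Fin.last a)

/-- the index bijection for one more letter `Y` -/
def phY (a b : ℕ) : (Fin a ⊕ Fin b) ⊕ Unit → Fin a ⊕ Fin (b + 1)
  | Sum.inl (Sum.inl i) => Sum.inl i
  | Sum.inl (Sum.inr j) => Sum.inr j.castSucc
  | Sum.inr _ => Sum.inr (Fin.last b)

theorem phX_inj (a b : ℕ) : Injective (phX a b) := by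
  rintro ((i | j) | u) ((i' | j') | u') h
  · have := Fin.castSucc_injective a (Sum.inl_injective h)
    rw [this]
  · exact absurd h (by simp [phX])
  · exact absurd (Sum.inl_injective h) (Fin.castSucc_lt_last i).ne
  · exact absurd h (by simp [phX])
  · have : j = j' := Sum.inr_injective h
    rw [this]
  · exact absurd h (by simp [phX])
  · exact absurd (Sum.inl_injective h).symm (Fin.castSucc_lt_last i').ne
  · exact absurd h (by simp [phX])
  · rfl

theorem phX_surj (a b : ℕ) : Surjective (phX a b) := by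
  rintro (i | j)
  · induction i using Fin.lastCases with
    | last => exact ⟨Sum.inr (), rfl⟩
    | cast i => exact ⟨Sum.inl (Sum.inl i), rfl⟩
  · exact ⟨Sum.inl (Sum.inr j), rfl⟩

theorem phY_inj (a b : ℕ) : Injective (phY a b) := by
  rintro ((i | j) | u) ((i' | j') | u') h
  · have : i = i' := Sum.inl_injective h
    rw [this]
  · exact absurd h (by simp [phY])
  · exact absurd h (by simp [phY])
  · exact absurd h (by simp [phY])
  · have := Fin.castSucc_injective b (Sum.inr_injective h)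
    rw [this]
  · exact absurd (Sum.inr_injective h) (Fin.castSucc_lt_last j).ne
  · exact absurd h (by simp [phY])
  · exact absurd (Sum.inr_injective h).symm (Fin.castSucc_lt_last j').ne
  · rfl

theorem phY_surj (a b : ℕ) : Surjective (phY a b) := by
  rintro (i | j)
  · exact ⟨Sum.inl (Sum.inl i), rfl⟩
  · induction j using Fin.lastCases with
    | last => exact ⟨Sum.inr (), rfl⟩
    | cast j => exact ⟨Sum.inl (Sum.inr j), rfl⟩

theorem image_comp {ι κ : Type} [Fintype ι] [Fintype κ] (φ : κ → ι) (hφ : Surjective φ)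
    (f : ι → V) : Finset.univ.image (f ∘ φ) = Finset.univ.image f := by
  ext v
  rw [Finset.mem_image, Finset.mem_image]
  constructor
  · rintro ⟨x, -, hx⟩
    exact ⟨φ x, Finset.mem_univ _, hx⟩
  · rintro ⟨y, -, hy⟩
    obtain ⟨x, rfl⟩ := hφ y
    exact ⟨x, Finset.mem_univ _, hy⟩

theorem lets_ne {X : Finset V} (hX : X.Nonempty) (hY : (Xᶜ).Nonempty) (a b : ℕ)
    (i : Fin a ⊕ Fin b) : (lets X a b i).Nonempty := by
  rcases i with i | i
  · exact hX
  · exact hY

theorem D_succ_left (h2 : StmtE02) (h3 : StmtE03) (H : Finset (Finset V)) (X M : Finset V)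
    (hX : X.Nonempty) (hY : (Xᶜ).Nonempty) (a b : ℕ) :
    D H X M (a + 1) b = avg (lets X a b) (fun f => dens (fun _ : Unit => X)
      (fun g => M ∪ Finset.univ.image (Sum.elim f g) ∈ H)) := by
  have e1 := h2 V (Fin (a + 1) ⊕ Fin b) ((Fin a ⊕ Fin b) ⊕ Unit) (lets X (a + 1) b) (phX a b)
    (lets_ne hX hY _ _) (phX_inj a b) (fun g => M ∪ Finset.univ.image g ∈ H)
  have e2 : (lets X (a + 1) b) ∘ (phX a b) = Sum.elim (lets X a b) (fun _ : Unit => X) := by
    funext i
    rcases i with (i | j) | u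
    · rfl
    · rfl
    · rfl
  have e3 := (h3 V (Fin a ⊕ Fin b) Unit (lets X a b) (fun _ : Unit => X) (lets_ne hX hY _ _)
    (fun _ => hX)).1 (fun g => M ∪ Finset.univ.image g ∈ H)
  unfold D
  rw [e2] at e1
  rw [← e3, ← e1]
  refine congrArg (dens (lets X (a + 1) b)) (funext fun f => ?_)
  rw [image_comp _ (phX_surj a b)]

theorem D_succ_right (h2 : StmtE02) (h3 : StmtE03) (H : Finset (Finset V)) (X M : Finset V)
    (hX : X.Nonempty) (hY : (Xᶜ).Nonempty) (a b : ℕ) :
    D H X M a (b + 1) = avg (lets X a b) (fun f => dens (fun _ : Unit => Xᶜ)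
      (fun g => M ∪ Finset.univ.image (Sum.elim f g) ∈ H)) := by
  have e1 := h2 V (Fin a ⊕ Fin (b + 1)) ((Fin a ⊕ Fin b) ⊕ Unit) (lets X a (b + 1)) (phY a b)
    (lets_ne hX hY _ _) (phY_inj a b) (fun g => M ∪ Finset.univ.image g ∈ H)
  have e2 : (lets X a (b + 1)) ∘ (phY a b) = Sum.elim (lets X a b) (fun _ : Unit => Xᶜ) := by
    funext i
    rcases i with (i | j) | u
    · rfl
    · rfl
    · rfl
  have e3 := (h3 V (Fin a ⊕ Fin b) Unit (lets X a b) (fun _ : Unit => Xᶜ) (lets_ne hX hY _ _)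
    (fun _ => hY)).1 (fun g => M ∪ Finset.univ.image g ∈ H)
  unfold D
  rw [e2] at e1
  rw [← e3, ← e1]
  refine congrArg (dens (lets X a (b + 1))) (funext fun f => ?_)
  rw [image_comp _ (phY_surj a b)]

theorem image_elim {a b : ℕ} (f : Fin a ⊕ Fin b → V) (x : V) (M : Finset V) :
    M ∪ Finset.univ.image (Sum.elim f (fun _ : Unit => x)) =
      insert x (M ∪ Finset.univ.image f) := by
  ext v
  simp only [Finset.mem_union, Finset.mem_image, Finset.mem_univ, true_and, Finset.mem_insert]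
  constructor
  · rintro (h | ⟨i | u, h⟩)
    · exact Or.inr (Or.inl h)
    · exact Or.inr (Or.inr ⟨i, h⟩)
    · exact Or.inl h.symm
  · rintro (h | h | ⟨i, h⟩)
    · exact Or.inr ⟨Sum.inr (), h.symm⟩
    · exact Or.inl h
    · exact Or.inr ⟨Sum.inl i, h⟩

/-- Row E_COD. -/
theorem e_cod (h1 : StmtE01) (h2 : StmtE02) (h3 : StmtE03) (h4 : StmtE04) : StmtE06 := by
  classical
  intro V _ _ H X M p q B a b δ hA hM
  obtain ⟨n, hn⟩ : ∃ n : ℝ, n = Fintype.card V := ⟨_, rfl⟩
  have big := hA.big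
  have lo := hA.lo
  have hi := hA.hi
  have lo' := hA.lo'
  have hi' := hA.hi'
  rw [← hn] at big lo hi lo' hi'
  have hδ := hA.pos
  have hδs := hA.small
  obtain ⟨K, hK⟩ : ∃ K : ℝ, K = ((p + q + 2 : ℕ) : ℝ) := ⟨_, rfl⟩
  have hK2 : 2 ≤ K := by rw [hK]; push_cast; linarith [Nat.cast_nonneg (α := ℝ) p, Nat.cast_nonneg (α := ℝ) q]
  have hKB : K ≤ ((B + p + q + 2 : ℕ) : ℝ) := by
    rw [hK]
    exact_mod_cast (by omega : p + q + 2 ≤ B + p + q + 2)
  rw [← hK] at big
  have hK3 : 3 * K ^ 2 ≤ δ * n := by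
    have g1 : 100 * K ^ 2 * K ≤ 100 * K ^ 2 * ((B + p + q + 2 : ℕ) : ℝ) :=
      mul_le_mul_of_nonneg_left hKB (by positivity)
    have g2 : 0 ≤ K ^ 2 * (K - 2) := mul_nonneg (sq_nonneg K) (by linarith)
    have g3 : 0 ≤ K ^ 2 := sq_nonneg K
    nlinarith
  have hn0 : 0 < n := by
    have g1 : 0 < 3 * K ^ 2 := by positivity
    by_contra hc
    push Not at hc
    have := mul_nonpos_of_nonneg_of_nonpos hδ.le hc
    linarith
  have hXp : (0 : ℝ) < X.card := by
    have : 0 < (1 - δ) * n / 2 := by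
      have : 0 < (1 - δ) * n := mul_pos (by linarith) hn0
      linarith
    linarith
  have hYp : (0 : ℝ) < (Xᶜ).card := by
    have : 0 < (1 - δ) * n / 2 := by
      have : 0 < (1 - δ) * n := mul_pos (by linarith) hn0
      linarith
    linarith
  have hX : X.Nonempty := Finset.card_pos.1 (by exact_mod_cast hXp)
  have hY : (Xᶜ).Nonempty := Finset.card_pos.1 (by exact_mod_cast hYp)
  rw [D_succ_left h2 h3 H X M hX hY, D_succ_right h2 h3 H X M hX hY]
  obtain ⟨u, hu⟩ : ∃ u : (Fin a ⊕ Fin b → V) → ℝ, u = fun f => dens (fun _ : Unit => X)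
      (fun g => M ∪ Finset.univ.image (Sum.elim f g) ∈ H) := ⟨_, rfl⟩
  obtain ⟨w, hw⟩ : ∃ w : (Fin a ⊕ Fin b → V) → ℝ, w = fun f => dens (fun _ : Unit => Xᶜ)
      (fun g => M ∪ Finset.univ.image (Sum.elim f g) ∈ H) := ⟨_, rfl⟩
  rw [← hu, ← hw]
  have hu0 : ∀ f, 0 ≤ u f := fun f => by
    rw [hu]; exact ((h1 V Unit (fun _ => X) (fun _ => hX)).1 _).1
  have hw0 : ∀ f, 0 ≤ w f := fun f => by
    rw [hw]; exact ((h1 V Unit (fun _ => Xᶜ) (fun _ => hY)).1 _).1
  -- the good tuples
  have hgood : ∀ f : Fin a ⊕ Fin b → V, Injective f → (∀ i, f i ∉ M) → 1 - δ ≤ u f + w f := by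
    intro f hf hfM
    obtain ⟨S, hS⟩ : ∃ S : Finset V, S = M ∪ Finset.univ.image f := ⟨_, rfl⟩
    have hdis : Disjoint M (Finset.univ.image f) := by
      rw [Finset.disjoint_right]
      intro v hv
      obtain ⟨i, -, rfl⟩ := Finset.mem_image.1 hv
      exact hfM i
    have hSc : S.card = (p + q + 2) - 1 := by
      rw [hS, Finset.card_union_of_disjoint hdis, Finset.card_image_of_injective _ hf,
        Finset.card_univ, Fintype.card_sum, Fintype.card_fin, Fintype.card_fin]
      omega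
    have hD := hA.dirac S hSc
    have hD' : n ≤ 2 * ((nb H S).card : ℝ) := by rw [hn]; exact_mod_cast hD
    have k1 : ((X ∩ nb H S).card : ℝ) ≤ (X.card : ℝ) * u f := by
      rw [hu]
      refine dens_unit X hX _ (nb H S) fun x _ hx => ?_
      rw [image_elim, ← hS]
      exact ((Finset.mem_filter.1 hx).2).2
    have k2 : ((Xᶜ ∩ nb H S).card : ℝ) ≤ ((Xᶜ).card : ℝ) * w f := by
      rw [hw]
      refine dens_unit Xᶜ hY _ (nb H S) fun x _ hx => ?_
      rw [image_elim, ← hS]
      exact ((Finset.mem_filter.1 hx).2).2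
    have k3 : ((nb H S).card : ℝ) = ((X ∩ nb H S).card : ℝ) + ((Xᶜ ∩ nb H S).card : ℝ) := by
      have : (nb H S).card = (X ∩ nb H S).card + (Xᶜ ∩ nb H S).card := by
        rw [← Finset.card_union_of_disjoint, ← Finset.union_inter_distrib_right,
          Finset.union_compl, Finset.univ_inter]
        exact Finset.disjoint_of_subset_left Finset.inter_subset_left
          (Finset.disjoint_of_subset_right Finset.inter_subset_left disjoint_compl_right)
      exact_mod_cast this
    have k4 : (X.card : ℝ) * u f ≤ (1 + δ) * n / 2 * u f :=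
      mul_le_mul_of_nonneg_right hi (hu0 f)
    have k5 : ((Xᶜ).card : ℝ) * w f ≤ (1 + δ) * n / 2 * w f :=
      mul_le_mul_of_nonneg_right hi' (hw0 f)
    have k6 : n * 1 ≤ n * ((1 + δ) * (u f + w f)) := by nlinarith
    have k7 := le_of_mul_le_mul_left k6 hn0
    by_contra hc
    push Not at hc
    have k8 : (1 + δ) * (u f + w f) < (1 + δ) * (1 - δ) :=
      mul_lt_mul_of_pos_left hc (by linarith)
    nlinarith [sq_nonneg δ]
  -- the degenerate tuples
  have hbx : bx X (Sum.elim (fun _ : Fin a => true) (fun _ : Fin b => false))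
      (fun _ => (none : Option V)) = lets X a b := by
    funext i
    rcases i with i | i
    · rfl
    · rfl
  have hdeg := h4 V (Fin a ⊕ Fin b) X M (Sum.elim (fun _ : Fin a => true) (fun _ : Fin b => false))
    (fun _ => (none : Option V)) (by exact_mod_cast (hn ▸ hn0 : (0 : ℝ) < (Fintype.card V : ℝ)))
    (fun bb => by
      rw [← hn]
      have g : n ≤ 3 * ((1 - δ) * n / 2) := by nlinarith
      cases bb with
      | true => exact g.trans (by show 3 * ((1 - δ) * n / 2) ≤ 3 * (X.card : ℝ); linarith)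
      | false => exact g.trans (by show 3 * ((1 - δ) * n / 2) ≤ 3 * ((Xᶜ).card : ℝ); linarith))
    (fun i i' v h => by cases h)
  rw [hbx, ← hn] at hdeg
  have hdeg2 : 3 * ((Fintype.card (Fin a ⊕ Fin b) : ℝ) ^ 2 +
      (Fintype.card (Fin a ⊕ Fin b) : ℝ) * (M.card : ℝ)) / n ≤ δ := by
    rw [div_le_iff₀ hn0]
    have g1 : (Fintype.card (Fin a ⊕ Fin b) : ℝ) = (a : ℝ) + b := by
      rw [Fintype.card_sum, Fintype.card_fin, Fintype.card_fin]; push_cast; ring
    have g2 : (M.card : ℝ) + a + b + 1 = K := by rw [hK]; exact_mod_cast hM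
    rw [g1]
    have g3 : 0 ≤ (a : ℝ) := Nat.cast_nonneg a
    have g4 : 0 ≤ (b : ℝ) := Nat.cast_nonneg b
    have g5 : 0 ≤ (M.card : ℝ) := Nat.cast_nonneg _
    have g6 : ((a : ℝ) + b) ^ 2 + ((a : ℝ) + b) * (M.card : ℝ) ≤ K ^ 2 := by
      have e : ((a : ℝ) + b) ^ 2 + ((a : ℝ) + b) * (M.card : ℝ) = ((a : ℝ) + b) * (K - 1) := by
        rw [← g2]; ring
      rw [e, sq]
      exact mul_le_mul (by linarith) (by linarith) (by linarith) (by linarith)
    linarith
  have hdeg3 : dens (lets X a b) (fun f => ¬ (Injective f ∧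
      ∀ i, (none : Option V) = none → f i ∉ M)) ≤ δ := hdeg.trans hdeg2
  have hgd : 1 - δ ≤ dens (lets X a b) (fun f => Injective f ∧
      ∀ i, (none : Option V) = none → f i ∉ M) := by
    have g : dens (lets X a b) (fun f => Injective f ∧
      ∀ i, (none : Option V) = none → f i ∉ M) + dens (lets X a b) (fun f => ¬ (Injective f ∧
      ∀ i, (none : Option V) = none → f i ∉ M)) = 1 :=
      (h1 V (Fin a ⊕ Fin b) (lets X a b) (lets_ne hX hY a b)).2.2.2.1
      (fun f => Injective f ∧ ∀ i, (none : Option V) = none → f i ∉ M)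
    linarith
  rw [dens_eq] at hgd
  have hpr : (0 : ℝ) < ∏ i, ((lets X a b i).card : ℝ) :=
    Finset.prod_pos fun i _ => by exact_mod_cast Finset.card_pos.2 (lets_ne hX hY a b i)
  rw [le_div_iff₀ hpr] at hgd
  unfold avg
  rw [← add_div, ← Finset.sum_add_distrib, le_div_iff₀ hpr]
  obtain ⟨G, hG⟩ : ∃ G : Finset (Fin a ⊕ Fin b → V), G = (Fintype.piFinset (lets X a b)).filter
      (fun f => Injective f ∧ ∀ i, (none : Option V) = none → f i ∉ M) := ⟨_, rfl⟩
  rw [← hG] at hgd
  have hsum : (1 - δ) * (G.card : ℝ) ≤ ∑ f ∈ Fintype.piFinset (lets X a b), (u f + w f) := by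
    calc (1 - δ) * (G.card : ℝ) = ∑ f ∈ G, (1 - δ) := by
          rw [Finset.sum_const, nsmul_eq_mul]; ring
      _ ≤ ∑ f ∈ G, (u f + w f) := by
          refine Finset.sum_le_sum fun f hf => ?_
          rw [hG, Finset.mem_filter] at hf
          exact hgood f hf.2.1 fun i => hf.2.2 i rfl
      _ ≤ ∑ f ∈ Fintype.piFinset (lets X a b), (u f + w f) := by
          refine Finset.sum_le_sum_of_subset_of_nonneg ?_ fun f _ _ => ?_
          · rw [hG]; exact Finset.filter_subset _ _
          · have := hu0 f; have := hw0 f; linarith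
  refine le_trans ?_ hsum
  have g1 : (1 - δ) * ((1 - δ) * ∏ i, ((lets X a b i).card : ℝ)) ≤ (1 - δ) * (G.card : ℝ) :=
    mul_le_mul_of_nonneg_left hgd (by linarith)
  refine le_trans ?_ g1
  have g2 : (1 - δ) * ((1 - δ) * ∏ i, ((lets X a b i).card : ℝ)) =
      ((1 - δ) * (1 - δ)) * ∏ i, ((lets X a b i).card : ℝ) := by ring
  rw [g2]
  refine mul_le_mul_of_nonneg_right ?_ hpr.le
  nlinarith [sq_nonneg δ]

end Pool.Agent.KK.E.H15
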