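import Pool.Agent.KK.StmtsW

/-!
# Squad KK, block BETA, row LOP: loops from the far flips
-/

set_option autoImplicit false

namespace Pool.Agent.KK.H15

theorem blk_getD {k t i : ℕ} (ht : t ≤ k) (hi : i < k) (d : Bool) :
    (blk k t).getD i d = decide (i < t) := by
  unfold blk
  rw [List.getD_eq_getElem?_getD]
  by_cases h : i < t
  · rw [List.getElem?_append_left (by rw [List.length_replicate]; exact h),
      List.getElem?_replicate, if_pos h, Option.getD_some]
    exact (decide_eq_true h).symm
  · rw [List.getElem?_append_right (by rw [List.length_replicate]; omega),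
      List.length_replicate, List.getElem?_replicate, if_pos (by omega), Option.getD_some]
    exact (decide_eq_false h).symm

theorem per_getD {w : List Bool} {a m i : ℕ} (hi : i < m) (d : Bool) :
    (per w a m).getD i d = w.getD ((a + i) % w.length) false := by
  unfold per
  rw [List.getD_eq_getElem?_getD, List.getElem?_map, List.getElem?_range hi]
  rfl

theorem mod1 {k i : ℕ} (hi : i < k) : (k - 1 + i) % k = if i = 0 then k - 1 else i - 1 := by
  split_ifs with h
  · rw [h, Nat.add_zero, Nat.mod_eq_of_lt (by omega)]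
  · have : k - 1 + i = (i - 1) + k := by omega
    rw [this, Nat.add_mod_right, Nat.mod_eq_of_lt (by omega)]

theorem mod2 {k i : ℕ} (hk : 2 ≤ k) (hi : i < k) :
    (k - 2 + i) % k = if i < 2 then k - 2 + i else i - 2 := by
  split_ifs with h
  · rw [Nat.mod_eq_of_lt (by omega)]
  · have : k - 2 + i = (i - 2) + k := by omega
    rw [this, Nat.add_mod_right, Nat.mod_eq_of_lt (by omega)]

theorem dec_if {P Q R : Prop} [Decidable P] [Decidable Q] [Decidable R] (h : P ↔ (Q ∨ R)) :
    decide P = if Q then true else decide R := by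
  by_cases hQ : Q
  · rw [if_pos hQ]; exact decide_eq_true (h.2 (Or.inl hQ))
  · rw [if_neg hQ]
    by_cases hR : R
    · rw [decide_eq_true hR]; exact decide_eq_true (h.2 (Or.inr hR))
    · rw [decide_eq_false hR]
      exact decide_eq_false fun hP => (h.1 hP).elim hQ hR

section

variable {V : Type} [Fintype V] [DecidableEq V] {H : Finset (Finset V)} {X : Finset V} {k p : ℕ}
  {ε : ℝ} {K : ℕ}

/-- repeating a closed plan -/
theorem rep (htra : TraStmt) {u : List Bool} {N a q : ℕ} (hu : u.length = k - 1)
    (h : Pl V H X k p ε K u u N a q) (r : ℕ) :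
    Pl V H X k p ε K u u (r * N) (r * a) (r * q) := by
  induction r with
  | zero =>
    rw [Nat.zero_mul, Nat.zero_mul, Nat.zero_mul]
    exact Pl.nil u hu
  | succ r ih =>
    have h1 := htra V H X k p ε K u u u (r * N) N (r * a) a (r * q) q ih h
    rw [Nat.succ_mul, Nat.succ_mul, Nat.succ_mul]
    exact h1

/-- the last letter of a rotation round -/
theorem last (hper : PerStmt) (hpwt : PwtStmt) (htra : TraStmt) {u : List Bool} {w : List Bool}
    (hk : 2 ≤ k) (hw : w.length = k) (hp : wt w % 2 = p) {N a q : ℕ}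
    (h : Pl V H X k p ε K u (per (per w (k - 1) k) 0 (k - 1)) N a q) :
    ∃ b ≤ 1, Pl V H X k p ε K u (per w 0 (k - 1)) (N + 1) (a + b) q := by
  obtain ⟨-, p2, p3, -, p5, -, -⟩ := hpwt
  have h1 := hper V H X k p ε K w (k - 1) 1 (by omega) hw hp
  have e1 : per (per w (k - 1) k) 0 (k - 1) = per w (k - 1) (k - 1) := by
    have := p5 w (k - 1) 0 (k - 1) (by omega)
    rw [hw] at this
    exact this
  have e2 : per w (k - 1 + 1) (k - 1) = per w 0 (k - 1) := by
    have := p2 w 0 (k - 1)
    rw [hw, Nat.zero_add] at this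
    rw [← this]
    congr 1
    omega
  rw [e1] at h
  rw [e2] at h1
  refine ⟨wt (per w (k - 1 + k - 1) 1), ?_, ?_⟩
  · unfold wt
    refine List.count_le_length.trans ?_
    rw [p3]
  · exact htra V H X k p ε K _ _ _ N 1 a _ q 0 h h1

/-- the rotation round at the lower level -/
theorem round_lo (hpup : PupStmt) (hpdn : PdnStmt) (hper : PerStmt) (hpwt : PwtStmt)
    (htra : TraStmt) (hblr : BlrStmt) {s : ℕ} (hk : 3 ≤ k) (hs : s + 2 ≤ k) (hp : s % 2 = p)
    (hP : KindP V H X k ε K (s + 1)) :
    ∃ a ≤ 8 * k + 1, Pl V H X k p ε K (per (blk k s) 0 (k - 1)) (per (blk k s) 0 (k - 1))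
      (8 * k + 1) a 2 := by
  obtain ⟨-, -, l1, w1⟩ := hblr k s (by omega) (by omega)
  obtain ⟨-, -, l2, w2⟩ := hblr k (s + 2) hs (by omega)
  obtain ⟨a1, ha1, hP1, -⟩ := hpup V H X k p (s + 1) ε K (blk k s) (blk k (s + 2)) s (s + 1)
    (by omega) l1 l2 (by omega) (by omega) (by omega) (by rw [w1]) (by rw [w1]; exact hp) hP
    (by rw [blk_getD (by omega) (by omega)]; exact decide_eq_false (by omega))
    (by rw [blk_getD (by omega) (by omega)]; exact decide_eq_false (by omega))
    (fun i hi => by
      rw [blk_getD (by omega) hi, blk_getD (by omega) hi]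
      exact dec_if (by omega))
  have lr : (per (blk k s) (k - 1) k).length = k := hpwt.2.2.1 _ _ _
  have wr : wt (per (blk k s) (k - 1) k) = s := by
    have := hpwt.1 (blk k s) (k - 1)
    rw [l1, w1] at this
    exact this
  obtain ⟨a2, ha2, hP2⟩ := hpdn V H X k p (s + 1) ε K (per (blk k s) (k - 1) k) (blk k (s + 2)) 0
    (s + 1) (by omega) lr l2 (by omega) (by omega) (by omega) (by rw [wr]) (by rw [wr]; exact hp) hP
    (by
      rw [per_getD (by omega), l1, mod1 (by omega), if_pos rfl, blk_getD (by omega) (by omega)]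
      exact decide_eq_false (by omega))
    (by
      rw [per_getD (by omega), l1, mod1 (by omega), if_neg (by omega),
        blk_getD (by omega) (by omega)]
      exact decide_eq_false (by omega))
    (fun i hi => by
      rw [blk_getD (by omega) hi, per_getD hi, l1, mod1 hi]
      by_cases h0 : i = 0
      · rw [if_pos h0, blk_getD (by omega) (by omega)]
        exact dec_if (by omega)
      · rw [if_neg h0, blk_getD (by omega) (by omega)]
        exact dec_if (by omega))
  have h3 := htra V H X k p ε K _ _ _ _ _ _ _ _ _ hP1 hP2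
  obtain ⟨b, hb, h4⟩ := last hper hpwt htra (by omega) l1 (by rw [w1]; exact hp) h3
  refine ⟨a1 + a2 + b, by omega, ?_⟩
  have e : 4 * k + 4 * k + 1 = 8 * k + 1 := by omega
  rw [e] at h4
  exact h4

/-- the rotation round at the upper level -/
theorem round_hi (hpup : PupStmt) (hpdn : PdnStmt) (hper : PerStmt) (hpwt : PwtStmt)
    (htra : TraStmt) (hblr : BlrStmt) {s : ℕ} (hk : 3 ≤ k) (hs : s + 2 ≤ k) (hp : s % 2 = p)
    (hP : KindP V H X k ε K (s + 1)) :
    ∃ a ≤ 8 * k + 1, Pl V H X k p ε K (per (blk k (s + 2)) 0 (k - 1))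
      (per (blk k (s + 2)) 0 (k - 1)) (8 * k + 1) a 2 := by
  obtain ⟨-, -, l1, w1⟩ := hblr k s (by omega) (by omega)
  obtain ⟨-, -, l2, w2⟩ := hblr k (s + 2) hs (by omega)
  have lr : (per (blk k s) (k - 2) k).length = k := hpwt.2.2.1 _ _ _
  have wr : wt (per (blk k s) (k - 2) k) = s := by
    have := hpwt.1 (blk k s) (k - 2)
    rw [l1, w1] at this
    exact this
  have lr2 : (per (blk k (s + 2)) (k - 1) k).length = k := hpwt.2.2.1 _ _ _
  -- the classes 0 and 1 are removed
  obtain ⟨a1, ha1, hP1⟩ := hpdn V H X k p (s + 1) ε K (per (blk k s) (k - 2) k) (blk k (s + 2)) 0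
    1 (by omega) lr l2 (by omega) (by omega) (by omega) (by rw [wr]) (by rw [wr]; exact hp) hP
    (by
      rw [per_getD (by omega), l1, mod2 (by omega) (by omega), if_pos (by omega),
        blk_getD (by omega) (by omega)]
      exact decide_eq_false (by omega))
    (by
      rw [per_getD (by omega), l1, mod2 (by omega) (by omega), if_pos (by omega),
        blk_getD (by omega) (by omega)]
      exact decide_eq_false (by omega))
    (fun i hi => by
      rw [blk_getD (by omega) hi, per_getD hi, l1, mod2 (by omega) hi]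
      by_cases h0 : i < 2
      · rw [if_pos h0, blk_getD (by omega) (by omega)]
        exact dec_if (by omega)
      · rw [if_neg h0, blk_getD (by omega) (by omega)]
        exact dec_if (by omega))
  -- the classes 1 and s + 2 (mod k) are added
  obtain ⟨c, hc⟩ : ∃ c : ℕ, c = if s + 2 = k then 0 else s + 2 := ⟨_, rfl⟩
  have hck : c < k := by rw [hc]; split_ifs <;> omega
  have hc1 : 1 ≠ c := by rw [hc]; split_ifs <;> omega
  obtain ⟨a2, ha2, hP2, -⟩ := hpup V H X k p (s + 1) ε K (per (blk k s) (k - 2) k)
    (per (blk k (s + 2)) (k - 1) k) 1 c (by omega) lr lr2 (by omega) hck hc1 (by rw [wr])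
    (by rw [wr]; exact hp) hP
    (by
      rw [per_getD (by omega), l1, mod2 (by omega) (by omega), if_pos (by omega),
        blk_getD (by omega) (by omega)]
      exact decide_eq_false (by omega))
    (by
      rw [per_getD hck, l1, mod2 (by omega) hck]
      by_cases h0 : c < 2
      · rw [if_pos h0, blk_getD (by omega) (by omega)]
        refine decide_eq_false ?_
        rw [hc] at h0 ⊢
        split_ifs at h0 ⊢ with h9
        · omega
        · omega
      · rw [if_neg h0, blk_getD (by omega) (by omega)]
        refine decide_eq_false ?_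
        rw [hc] at h0 ⊢
        split_ifs at h0 ⊢ with h9
        · omega
        · omega)
    (fun i hi => by
      rw [per_getD hi, per_getD hi, l1, l2, mod2 (by omega) hi, mod1 hi]
      by_cases h9 : s + 2 = k
      · rw [if_pos h9] at hc
        by_cases h0 : i = 0
        · rw [if_pos h0, if_pos (show i < 2 by omega), blk_getD (by omega) (by omega),
            blk_getD (by omega) (by omega)]
          exact dec_if (by omega)
        · by_cases h1 : i < 2
          · rw [if_neg h0, if_pos h1, blk_getD (by omega) (by omega),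
              blk_getD (by omega) (by omega)]
            exact dec_if (by omega)
          · rw [if_neg h0, if_neg h1, blk_getD (by omega) (by omega),
              blk_getD (by omega) (by omega)]
            exact dec_if (by omega)
      · rw [if_neg h9] at hc
        by_cases h0 : i = 0
        · rw [if_pos h0, if_pos (show i < 2 by omega), blk_getD (by omega) (by omega),
            blk_getD (by omega) (by omega)]
          exact dec_if (by omega)
        · by_cases h1 : i < 2
          · rw [if_neg h0, if_pos h1, blk_getD (by omega) (by omega),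
              blk_getD (by omega) (by omega)]
            exact dec_if (by omega)
          · rw [if_neg h0, if_neg h1, blk_getD (by omega) (by omega),
              blk_getD (by omega) (by omega)]
            exact dec_if (by omega))
  have h3 := htra V H X k p ε K _ _ _ _ _ _ _ _ _ hP1 hP2
  obtain ⟨b, hb, h4⟩ := last hper hpwt htra (by omega) l2 (by rw [w2]; omega) h3
  refine ⟨a1 + a2 + b, by omega, ?_⟩
  have e : 4 * k + 4 * k + 1 = 8 * k + 1 := by omega
  rw [e] at h4
  exact h4

end

/-- arithmetic of the lengths -/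
theorem len_mod {k r : ℕ} (hr : r < k) : (r * (8 * k + 1) + 8 * k) % k = r := by
  have : r * (8 * k + 1) + 8 * k = r + k * (8 * r + 8) := by ring
  rw [this, Nat.add_mul_mod_self_left, Nat.mod_eq_of_lt hr]

theorem bnd {k r a : ℕ} (hr : r < k) (ha : a ≤ 8 * k + 1) : r * a ≤ 8 * k ^ 2 + k := by
  calc r * a ≤ k * (8 * k + 1) := Nat.mul_le_mul hr.le ha
    _ = 8 * k ^ 2 + k := by ring

/-- Row LOP. -/
theorem lop (hpup : PupStmt) (hpdn : PdnStmt) (hper : PerStmt) (htra : TraStmt) (hblr : BlrStmt)
    (hpwt : PwtStmt) (hglu : GluStmt) : LopStmt := by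
  intro k hk
  obtain ⟨K₀, hB, hG⟩ := hglu k (8 * k ^ 2 + 20 * k + 10) (by omega)
  refine ⟨K₀, ?_⟩
  intro V _ _ H X p ε K j hj hjk hjp hP
  obtain ⟨s, rfl⟩ : ∃ s, j = s + 1 := ⟨j - 1, by omega⟩
  have hs : s + 2 ≤ k := by omega
  have hp : s % 2 = p := by omega
  obtain ⟨-, -, l1, w1⟩ := hblr k s (by omega) (by omega)
  obtain ⟨-, -, l2, w2⟩ := hblr k (s + 2) hs (by omega)
  have lc1 : (per (blk k s) 0 (k - 1)).length = k - 1 := hpwt.2.2.1 _ _ _
  have lc2 : (per (blk k (s + 2)) 0 (k - 1)).length = k - 1 := hpwt.2.2.1 _ _ _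
  obtain ⟨a1, ha1, hU1, hU2⟩ := hpup V H X k p (s + 1) ε K (blk k s) (blk k (s + 2)) s (s + 1)
    (by omega) l1 l2 (by omega) (by omega) (by omega) (by rw [w1]) (by rw [w1]; exact hp) hP
    (by rw [blk_getD (by omega) (by omega)]; exact decide_eq_false (by omega))
    (by rw [blk_getD (by omega) (by omega)]; exact decide_eq_false (by omega))
    (fun i hi => by
      rw [blk_getD (by omega) hi, blk_getD (by omega) hi]
      exact dec_if (by omega))
  obtain ⟨a2, ha2, hD⟩ := hpdn V H X k p (s + 1) ε K (blk k s) (blk k (s + 2)) s (s + 1)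
    (by omega) l1 l2 (by omega) (by omega) (by omega) (by rw [w1]) (by rw [w1]; exact hp) hP
    (by rw [blk_getD (by omega) (by omega)]; exact decide_eq_false (by omega))
    (by rw [blk_getD (by omega) (by omega)]; exact decide_eq_false (by omega))
    (fun i hi => by
      rw [blk_getD (by omega) hi, blk_getD (by omega) hi]
      exact dec_if (by omega))
  obtain ⟨aL, haL, hRL⟩ := round_lo hpup hpdn hper hpwt htra hblr hk hs hp hP
  obtain ⟨aH, haH, hRH⟩ := round_hi hpup hpdn hper hpwt htra hblr hk hs hp hP
  constructor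
  · refine hG V H X p ε K (s + 1) (s + 1 - 1) (s + 2) (blk k (s + 2))
      (Or.inl ⟨by omega, by omega⟩) (by omega) (by omega) l2 w2 ?_
    intro r δ hr hδ
    have e0 : s + 1 - 1 = s := by omega
    rw [e0]
    have hrr := rep htra lc1 hRL r
    have t1 := htra V H X k p ε K _ _ _ _ _ _ _ _ _ hrr hU1
    have t2 := htra V H X k p ε K _ _ _ _ _ _ _ _ _ hrr hU2
    have b1 := bnd hr haL
    have b2 := bnd hr (le_refl (8 * k + 1))
    have el : r * (8 * k + 1) + 4 * k + 4 * k = r * (8 * k + 1) + 8 * k := by omega
    by_cases hpar : (r * aL + a1 + a2 + s * ((r * (8 * k + 1) + 8 * k) / k)) % 2 = δ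
    · refine ⟨_, _, _, _, _, _, ?_, ?_, ?_, ?_, ?_, t1, hD⟩
      · omega
      · omega
      · omega
      · rw [el]; exact len_mod hr
      · rw [el]; exact hpar
    · refine ⟨_, _, _, _, _, _, ?_, ?_, ?_, ?_, ?_, t2, hD⟩
      · omega
      · omega
      · omega
      · rw [el]; exact len_mod hr
      · rw [el]; omega
  · refine hG V H X p ε K (s + 1) (s + 2) s (blk k s)
      (Or.inr ⟨by omega, by omega⟩) (by omega) (by omega) l1 w1 ?_
    intro r δ hr hδ
    have hrr := rep htra lc2 hRH r
    have t1 := htra V H X k p ε K _ _ _ _ _ _ _ _ _ hrr hD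
    have b1 := bnd hr haH
    have b2 := bnd hr (le_refl (8 * k + 1))
    have el : r * (8 * k + 1) + 4 * k + 4 * k = r * (8 * k + 1) + 8 * k := by omega
    by_cases hpar : (r * aH + a2 + a1 + (s + 2) * ((r * (8 * k + 1) + 8 * k) / k)) % 2 = δ
    · refine ⟨_, _, _, _, _, _, ?_, ?_, ?_, ?_, ?_, t1, hU1⟩
      · omega
      · omega
      · omega
      · rw [el]; exact len_mod hr
      · rw [el]; exact hpar
    · refine ⟨_, _, _, _, _, _, ?_, ?_, ?_, ?_, ?_, t1, hU2⟩
      · omega
      · omega
      · omega
      · rw [el]; exact len_mod hr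
      · rw [el]; omega

end Pool.Agent.KK.H15
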